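import Pool.Agent.Helper80.SI.StN

set_option autoImplicit false
set_option linter.unusedSectionVars false

namespace Pool.Agent.Helper62.SI

open Pool.Agent.Helper99.SI Pool.Agent.Helper80.SI Filter Topology

section

variable {n : ℕ} {L : Type} [Ring L] [Algebra ℂ L] [StarRing L] [StarModule ℂ L] [Nontrivial L]

lemma w_nil (D : Sys n L) : D.w [] = 1 := by
  simp [Sys.w, wd]

lemma g_w (h2 : StA2) (D : Sys n L) (l : ℤ) (μ : W n) (hl : l.natAbs < μ.length) :
    D.g.p l (D.w μ) = 0 := by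
  have h := h2 n L D l μ []
  rw [w_nil, star_one, mul_one] at h
  rw [h, if_neg]
  intro h3
  simp only [List.length_nil, Nat.cast_zero, sub_zero] at h3
  omega

lemma g_sw (h2 : StA2) (D : Sys n L) (l : ℤ) (μ : W n) (hl : l.natAbs < μ.length) :
    D.g.p l (star (D.w μ)) = 0 := by
  have h := h2 n L D l [] μ
  rw [w_nil, one_mul] at h
  rw [h, if_neg]
  intro h3
  simp only [List.length_nil, Nat.cast_zero, zero_sub] at h3
  omega

lemma g_pi (h1 : StA0) (h2 : StA2) (D : Sys n L) (m : MData n L) (l : ℤ) (i : Idx n m.r)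
    (hi : l.natAbs < ilen i) : D.g.p l (m.piT D 1 i) = 0 := by
  obtain ⟨_, _, _, _, hev, _⟩ := h1 L D.b
  rcases i with (ν | ν) | a
  · have hν : l.natAbs < ν.length := hi
    change D.g.p l (if m.M ≤ ν.length then D.b.ev ((1 : ℝ) : ℂ) (D.w ν) else 0) = 0
    split_ifs
    · rw [Complex.ofReal_one, hev]
      exact g_w h2 D l ν hν
    · exact map_zero _
  · have hν : l.natAbs < ν.length := hi
    change D.g.p l (if m.M ≤ ν.length then star (D.w ν) else 0) = 0
    split_ifs
    · exact g_sw h2 D l ν hν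
    · exact map_zero _
  · exact absurd hi (Nat.not_lt_zero _)

lemma Cc_ilen (m : MData n L) (t : ℝ) (i' i : Idx n m.r) (h : m.Cc t i' i ≠ 0) :
    ilen i' ≤ ilen i := by
  classical
  rcases i' with (ν | ν) | a
  · have h1 : (Finsupp.single (Sum.inl (Sum.inr ν) : Idx n m.r) (1 : ℂ)) i ≠ 0 := h
    rw [Finsupp.single_apply] at h1
    have h2 : (Sum.inl (Sum.inr ν) : Idx n m.r) = i := by
      by_contra h3
      exact h1 (if_neg h3)
    rw [← h2]
    exact le_refl _
  · have h1 : (Finsupp.single (Sum.inl (Sum.inl ν) : Idx n m.r) (1 : ℂ)) i ≠ 0 := h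
    rw [Finsupp.single_apply] at h1
    have h2 : (Sum.inl (Sum.inl ν) : Idx n m.r) = i := by
      by_contra h3
      exact h1 (if_neg h3)
    rw [← h2]
    exact le_refl _
  · exact Nat.zero_le _

/-- `comp` is a finite sum. -/
lemma comp_eq (h1 : StA0) (h2 : StA2) (D : Sys n L) (m : MData n L) (z : Idx n m.r → ℂ) (l : ℤ)
    (K : ℕ) (hK : l.natAbs ≤ K) (T : Finset (Idx n m.r)) (hT : ∀ i, i ∈ T ↔ ilen i ≤ K) :
    comp D m z l = ∑ i ∈ T, z i • D.g.p l (m.piT D 1 i) := by
  unfold comp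
  apply finsum_eq_sum_of_support_subset
  intro i hi
  rw [Function.mem_support] at hi
  rw [Finset.mem_coe, hT]
  by_contra h3
  apply hi
  rw [g_pi h1 h2 D m l i (by omega), smul_zero]

lemma Cinf_eq (m : MData n L) (t : ℝ) (z : Idx n m.r → ℂ) (K : ℕ) (T : Finset (Idx n m.r))
    (hT : ∀ i, i ∈ T ↔ ilen i ≤ K) (i : Idx n m.r) (hi : i ∈ T) :
    Cinf m t z i = ∑ i' ∈ T, star (z i') * m.Cc t i' i := by
  unfold Cinf
  apply finsum_eq_sum_of_support_subset
  intro i' hi'
  rw [Function.mem_support] at hi'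
  rw [Finset.mem_coe, hT]
  have h3 : m.Cc t i' i ≠ 0 := right_ne_zero_of_mul hi'
  exact (Cc_ilen m t i' i h3).trans ((hT i).1 hi)

end

theorem hN6 (h1 : StA0) (h2 : StA2) : StN6 := by
  intro n L _ _ _ _ _ D X0 m z l hM
  classical
  obtain ⟨T, hT⟩ : ∃ T : Finset (Idx n m.r), ∀ i, i ∈ T ↔ ilen i ≤ l.natAbs :=
    ⟨(fin_ilen l.natAbs).toFinset, fun i => by rw [Set.Finite.mem_toFinset]; exact Iff.rfl⟩
  rw [comp_eq h1 h2 D m _ l l.natAbs le_rfl T hT,
    comp_eq h1 h2 D m z (-l) l.natAbs (by rw [Int.natAbs_neg]) T hT]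
  have hpi : ∀ i' : Idx n m.r, m.piV D 1 (m.Cc 1 i') = star (m.piT D 1 i') := by
    intro i'
    have h3 := hM.Cpi 1 one_pos (Finsupp.single i' 1)
    obtain ⟨_, _, _, _, hev, _⟩ := h1 L D.b
    rw [Complex.ofReal_one, hev] at h3
    have h4 : m.Cl 1 (Finsupp.single i' 1) = m.Cc 1 i' := by
      unfold MData.Cl
      rw [Finsupp.sum_single_index]
      · rw [star_one, one_smul]
      · rw [star_zero, zero_smul]
    have h5 : m.piV D 1 (Finsupp.single i' 1) = m.piT D 1 i' := by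
      unfold MData.piV
      rw [Finsupp.linearCombination_single, one_smul]
    rw [h4, h5] at h3
    exact h3
  have hkey : ∀ i' : Idx n m.r, ∑ i ∈ T, m.Cc 1 i' i • D.g.p l (m.piT D 1 i) =
      star (D.g.p (-l) (m.piT D 1 i')) := by
    intro i'
    have h3 : D.g.p l (star (m.piT D 1 i')) = star (D.g.p (-l) (m.piT D 1 i')) := by
      have h4 := D.g.st (-l) (m.piT D 1 i')
      rw [neg_neg] at h4
      exact h4
    rw [← h3, ← hpi i']
    unfold MData.piV
    rw [Finsupp.linearCombination_apply, Finsupp.sum, map_sum]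
    have h5 : ∀ i ∈ (m.Cc 1 i').support, D.g.p l (m.Cc 1 i' i • m.piT D 1 i) =
        m.Cc 1 i' i • D.g.p l (m.piT D 1 i) := fun i _ => map_smul _ _ _
    rw [Finset.sum_congr rfl h5]
    -- both sums are over the union
    rw [Finset.sum_subset (Finset.subset_union_left (s₁ := T) (s₂ := (m.Cc 1 i').support)),
      Finset.sum_subset (Finset.subset_union_right (s₁ := T) (s₂ := (m.Cc 1 i').support))]
    · intro i _ hi
      rw [Finsupp.notMem_support_iff.1 hi, zero_smul]
    · intro i _ hi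
      rw [hT] at hi
      rw [g_pi h1 h2 D m l i (by omega), smul_zero]
  calc ∑ i ∈ T, Cinf m 1 z i • D.g.p l (m.piT D 1 i)
      = ∑ i ∈ T, ∑ i' ∈ T, star (z i') • (m.Cc 1 i' i • D.g.p l (m.piT D 1 i)) := by
        refine Finset.sum_congr rfl fun i hi => ?_
        rw [Cinf_eq m 1 z l.natAbs T hT i hi, Finset.sum_smul]
        exact Finset.sum_congr rfl fun i' _ => mul_smul _ _ _
    _ = ∑ i' ∈ T, star (z i') • ∑ i ∈ T, m.Cc 1 i' i • D.g.p l (m.piT D 1 i) := by
        rw [Finset.sum_comm]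
        exact Finset.sum_congr rfl fun i' _ => (Finset.smul_sum).symm
    _ = ∑ i' ∈ T, star (z i' • D.g.p (-l) (m.piT D 1 i')) := by
        refine Finset.sum_congr rfl fun i' _ => ?_
        rw [hkey i', star_smul]
    _ = star (∑ i' ∈ T, z i' • D.g.p (-l) (m.piT D 1 i')) := (star_sum _ _).symm

end Pool.Agent.Helper62.SI
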